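import Mathlib

/-!
# Polyamorous scheduling instances of poly density `3/4 + 1/(2N)` which are not schedulable

The graph has six vertices and the seven edges `01, 02, 03, 12, 14, 35, 45` with the frequencies
`N, 5, 2, 5, 2, 4, 4`. In a feasible schedule of the other six edges the edge `01` cannot appear
on any day `t ≥ 3`.
-/

set_option autoImplicit false

namespace Pool.Agent.Results.MP_90a930_lc.ThreeQuarters

/-- `M` is a matching of `G`: a set of pairwise disjoint edges. -/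
def IsMatch {V : Type} (G : SimpleGraph V) (M : Finset (Sym2 V)) : Prop :=
  (∀ e ∈ M, e ∈ G.edgeSet) ∧ ∀ e ∈ M, ∀ e' ∈ M, ∀ v, v ∈ e → v ∈ e' → e = e'

/-- `M` is an inclusion-maximal matching of `G`. -/
def IsMaxMatch {V : Type} (G : SimpleGraph V) (M : Finset (Sym2 V)) : Prop :=
  IsMatch G M ∧ ∀ M' : Finset (Sym2 V), IsMatch G M' → M ⊆ M' → M' = M

/-- `z` is a weighting of the edges: `z_e ∈ [0,1]` for every edge and the sum over all edges
is `1`. -/
def IsWeighting {V : Type} [Finite V] (G : SimpleGraph V) (z : Sym2 V → ℝ) : Prop :=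
  (∀ e ∈ G.edgeSet, 0 ≤ z e ∧ z e ≤ 1) ∧ ∑ e ∈ G.edgeSet.toFinite.toFinset, z e = 1

/-- The set of the values `1 / max_M ∑_{e ∈ M} z_e f_e` (`M` runs over the inclusion-maximal
matchings), `z` running over all weightings. The poly density of `(G, f)` is the greatest element
of this set. -/
def densityValues {V : Type} [Finite V] (G : SimpleGraph V) (f : Sym2 V → ℕ) : Set ℝ :=
  {x | ∃ z : Sym2 V → ℝ, IsWeighting G z ∧
    x = 1 / sSup {y | ∃ M : Finset (Sym2 V), IsMaxMatch G M ∧ y = ∑ e ∈ M, z e * f e}}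

/-- `S` is a feasible schedule of the instance `(G, f)`: every `S t` is a matching and every edge
`e` lies in one of `S t, S (t + 1), …, S (t + f_e - 1)`, for all `t`. -/
def IsFeasible {V : Type} (G : SimpleGraph V) (f : Sym2 V → ℕ) (S : ℕ → Finset (Sym2 V)) : Prop :=
  (∀ t, IsMatch G (S t)) ∧ ∀ e ∈ G.edgeSet, ∀ t, ∃ i < f e, e ∈ S (t + i)

/-! ### the finite check

The edges are numbered `a = 01, b = 02, c = 03, d = 12, e = 14, f = 35, g = 45`; the state counts
the days since the last service of `b, …, g`. The maximal matchings are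
`ce, af, df, bef, ag, bg, cdg`. The number `p` says that `a` has to be served in `p - 1` days (if
`p ≥ 1`). -/

/-- no safe continuation of length `k` from the state `(b,c,d,e,f,g)` -/
def chk : ℕ → ℕ → ℕ → ℕ → ℕ → ℕ → ℕ → ℕ → Bool
  | 0, _, _, _, _, _, _, _ => false
  | k + 1, p, b, c, d, e, f, g =>
    -- `ce`
    ((Nat.beq p 1 || Nat.ble 4 b || Nat.ble 4 d || Nat.ble 3 f || Nat.ble 3 g ||
      chk k (p - 1) (b + 1) 0 (d + 1) 0 (f + 1) (g + 1)) &&
    -- `af`
    ((Nat.ble 4 b || Nat.ble 1 c || Nat.ble 4 d || Nat.ble 1 e || Nat.ble 3 g ||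
      chk k (p - 1) (b + 1) (c + 1) (d + 1) (e + 1) 0 (g + 1)) &&
    -- `df`
    ((Nat.beq p 1 || Nat.ble 4 b || Nat.ble 1 c || Nat.ble 1 e || Nat.ble 3 g ||
      chk k (p - 1) (b + 1) (c + 1) 0 (e + 1) 0 (g + 1)) &&
    -- `bef`
    ((Nat.beq p 1 || Nat.ble 1 c || Nat.ble 4 d || Nat.ble 3 g ||
      chk k (p - 1) 0 (c + 1) (d + 1) 0 0 (g + 1)) &&
    -- `ag`
    ((Nat.ble 4 b || Nat.ble 1 c || Nat.ble 4 d || Nat.ble 1 e || Nat.ble 3 f ||
      chk k (p - 1) (b + 1) (c + 1) (d + 1) (e + 1) (f + 1) 0) &&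
    -- `bg`
    ((Nat.beq p 1 || Nat.ble 1 c || Nat.ble 4 d || Nat.ble 1 e || Nat.ble 3 f ||
      chk k (p - 1) 0 (c + 1) (d + 1) (e + 1) (f + 1) 0) &&
    -- `cdg`
    (Nat.beq p 1 || Nat.ble 4 b || Nat.ble 1 e || Nat.ble 3 f ||
      chk k (p - 1) (b + 1) 0 0 (e + 1) (f + 1) 0)))))))

theorem chk_run : chk 7 4 0 0 0 0 0 0 = true := by decide

/-- the constraint of one edge in state `s`: served within the next `f - s` days -/
def Srv (B : ℕ → Prop) (f s t : ℕ) : Prop := ∃ j, j + s < f ∧ B (t + j)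

lemma srv_zero {B : ℕ → Prop} {f : ℕ} (h : ∀ t, ∃ i < f, B (t + i)) (t : ℕ) : Srv B f 0 t := by
  obtain ⟨i, hi, hB⟩ := h t
  exact ⟨i, by omega, hB⟩

lemma srv_succ {B : ℕ → Prop} {f s t : ℕ} (h : Srv B f s t) (hn : ¬ B t) :
    Srv B f (s + 1) (t + 1) := by
  obtain ⟨j, hj, hB⟩ := h
  rcases j with _ | j
  · exact absurd hB hn
  · exact ⟨j, by omega, by rwa [Nat.add_assoc, Nat.add_comm 1 j]⟩

lemma srv_last {B : ℕ → Prop} {f s t : ℕ} (h : Srv B f s t) (hs : f ≤ s + 1) : B t := by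
  obtain ⟨j, hj, hB⟩ := h
  obtain rfl : j = 0 := by omega
  simpa using hB

theorem no_run (A B C D E F G : ℕ → Prop)
    (hB : ∀ t, ∃ i < 5, B (t + i)) (hC : ∀ t, ∃ i < 2, C (t + i))
    (hD : ∀ t, ∃ i < 5, D (t + i)) (hE : ∀ t, ∃ i < 2, E (t + i)) (hF : ∀ t, ∃ i < 4, F (t + i))
    (hG : ∀ t, ∃ i < 4, G (t + i))
    (hm : ∀ t, (¬ A t ∧ ¬ B t ∧ ¬ D t ∧ ¬ F t ∧ ¬ G t) ∨
      (¬ B t ∧ ¬ C t ∧ ¬ D t ∧ ¬ E t ∧ ¬ G t) ∨
      (¬ A t ∧ ¬ B t ∧ ¬ C t ∧ ¬ E t ∧ ¬ G t) ∨
      (¬ A t ∧ ¬ C t ∧ ¬ D t ∧ ¬ G t) ∨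
      (¬ B t ∧ ¬ C t ∧ ¬ D t ∧ ¬ E t ∧ ¬ F t) ∨
      (¬ A t ∧ ¬ C t ∧ ¬ D t ∧ ¬ E t ∧ ¬ F t) ∨
      (¬ A t ∧ ¬ B t ∧ ¬ E t ∧ ¬ F t)) (k : ℕ) :
    ∀ p b c d e f g t, chk k p b c d e f g = true → (∀ q, p = q + 1 → A (t + q)) →
      Srv B 5 b t → Srv C 2 c t → Srv D 5 d t → Srv E 2 e t → Srv F 4 f t → Srv G 4 g t →
      False := by
  induction k with
  | zero => intro p b c d e f g t h; simp [chk] at h
  | succ k ih =>
    intro p b c d e f g t h hp sB sC sD sE sF sG
    simp only [chk, Bool.and_eq_true, Bool.or_eq_true, Nat.ble_eq] at h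
    obtain ⟨h0, h1, h2, h3, h4, h5, h6⟩ := h
    have hp1 : p = 1 → A t := fun h => by simpa using hp 0 h
    have hp2 : ∀ q, p - 1 = q + 1 → A (t + 1 + q) := by
      intro q hq
      have := hp (q + 1) (by omega)
      rwa [Nat.add_assoc, Nat.add_comm 1 q]
    rcases hm t with ⟨n0, n1, n2, n3, n4⟩ |
      ⟨n0, n1, n2, n3, n4⟩ |
      ⟨n0, n1, n2, n3, n4⟩ |
      ⟨n0, n1, n2, n3⟩ |
      ⟨n0, n1, n2, n3, n4⟩ |
      ⟨n0, n1, n2, n3, n4⟩ |
      ⟨n0, n1, n2, n3⟩
    · rcases h0 with ((((h | h) | h) | h) | h) | h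
      · exact n0 (hp1 (Nat.eq_of_beq_eq_true h))
      · exact n1 (srv_last sB (by omega))
      · exact n2 (srv_last sD (by omega))
      · exact n3 (srv_last sF (by omega))
      · exact n4 (srv_last sG (by omega))
      · exact ih _ _ _ _ _ _ _ (t + 1) h hp2 (srv_succ sB n1) (srv_zero hC _) (srv_succ sD n2) (srv_zero hE _) (srv_succ sF n3) (srv_succ sG n4)
    · rcases h1 with ((((h | h) | h) | h) | h) | h
      · exact n0 (srv_last sB (by omega))
      · exact n1 (srv_last sC (by omega))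
      · exact n2 (srv_last sD (by omega))
      · exact n3 (srv_last sE (by omega))
      · exact n4 (srv_last sG (by omega))
      · exact ih _ _ _ _ _ _ _ (t + 1) h hp2 (srv_succ sB n0) (srv_succ sC n1) (srv_succ sD n2) (srv_succ sE n3) (srv_zero hF _) (srv_succ sG n4)
    · rcases h2 with ((((h | h) | h) | h) | h) | h
      · exact n0 (hp1 (Nat.eq_of_beq_eq_true h))
      · exact n1 (srv_last sB (by omega))
      · exact n2 (srv_last sC (by omega))
      · exact n3 (srv_last sE (by omega))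
      · exact n4 (srv_last sG (by omega))
      · exact ih _ _ _ _ _ _ _ (t + 1) h hp2 (srv_succ sB n1) (srv_succ sC n2) (srv_zero hD _) (srv_succ sE n3) (srv_zero hF _) (srv_succ sG n4)
    · rcases h3 with (((h | h) | h) | h) | h
      · exact n0 (hp1 (Nat.eq_of_beq_eq_true h))
      · exact n1 (srv_last sC (by omega))
      · exact n2 (srv_last sD (by omega))
      · exact n3 (srv_last sG (by omega))
      · exact ih _ _ _ _ _ _ _ (t + 1) h hp2 (srv_zero hB _) (srv_succ sC n1) (srv_succ sD n2) (srv_zero hE _) (srv_zero hF _) (srv_succ sG n3)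
    · rcases h4 with ((((h | h) | h) | h) | h) | h
      · exact n0 (srv_last sB (by omega))
      · exact n1 (srv_last sC (by omega))
      · exact n2 (srv_last sD (by omega))
      · exact n3 (srv_last sE (by omega))
      · exact n4 (srv_last sF (by omega))
      · exact ih _ _ _ _ _ _ _ (t + 1) h hp2 (srv_succ sB n0) (srv_succ sC n1) (srv_succ sD n2) (srv_succ sE n3) (srv_succ sF n4) (srv_zero hG _)
    · rcases h5 with ((((h | h) | h) | h) | h) | h
      · exact n0 (hp1 (Nat.eq_of_beq_eq_true h))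
      · exact n1 (srv_last sC (by omega))
      · exact n2 (srv_last sD (by omega))
      · exact n3 (srv_last sE (by omega))
      · exact n4 (srv_last sF (by omega))
      · exact ih _ _ _ _ _ _ _ (t + 1) h hp2 (srv_zero hB _) (srv_succ sC n1) (srv_succ sD n2) (srv_succ sE n3) (srv_succ sF n4) (srv_zero hG _)
    · rcases h6 with (((h | h) | h) | h) | h
      · exact n0 (hp1 (Nat.eq_of_beq_eq_true h))
      · exact n1 (srv_last sB (by omega))
      · exact n2 (srv_last sE (by omega))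
      · exact n3 (srv_last sF (by omega))
      · exact ih _ _ _ _ _ _ _ (t + 1) h hp2 (srv_succ sB n1) (srv_zero hC _) (srv_zero hD _) (srv_succ sE n2) (srv_succ sF n3) (srv_zero hG _)

/-! ### the instance -/

/-- the seven edges -/
def edg : Finset (Sym2 (Fin 6)) :=
  {s(0, 1), s(0, 2), s(0, 3), s(1, 2), s(1, 4), s(3, 5), s(4, 5)}

/-- the graph with the edges `01, 02, 03, 12, 14, 35, 45` -/
def Gr : SimpleGraph (Fin 6) where
  Adj a b := s(a, b) ∈ edg
  symm := ⟨fun a b h => by rwa [Sym2.eq_swap]⟩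
  loopless := ⟨by decide⟩

/-- the frequencies `N, 5, 2, 5, 2, 4, 4` of the edges `01, 02, 03, 12, 14, 35, 45` -/
def fr (N : ℕ) (e : Sym2 (Fin 6)) : ℕ :=
  if e = s(0, 1) then N else if e = s(0, 2) then 5 else if e = s(1, 2) then 5 else
    if e = s(0, 3) then 2 else if e = s(1, 4) then 2 else 4

lemma mem_edge (e : Sym2 (Fin 6)) : e ∈ Gr.edgeSet ↔ e ∈ edg := by
  induction e using Sym2.ind with
  | _ a b => rw [SimpleGraph.mem_edgeSet]; rfl

lemma edge_finset : Gr.edgeSet.toFinite.toFinset = edg := by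
  ext e
  rw [Set.Finite.mem_toFinset, mem_edge]

lemma alts : ∀ a b c d e f g : Bool, ((a && b) || (a && c) || (b && c) || (a && d) || (a && e) || (d && e) || (b && d) || (c && f) || (e && g) || (f && g) ||
      (!a && !b && !d && !f && !g) ||
      (!b && !c && !d && !e && !g) ||
      (!a && !b && !c && !e && !g) ||
      (!a && !c && !d && !g) ||
      (!b && !c && !d && !e && !f) ||
      (!a && !c && !d && !e && !f) ||
      (!a && !b && !e && !f)) = true := by decide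

lemma adj_false {t : Finset (Sym2 (Fin 6))} (ht : IsMatch Gr t) (e e' : Sym2 (Fin 6)) (v : Fin 6)
    (hne : e ≠ e') (hv : v ∈ e) (hv' : v ∈ e') : (decide (e ∈ t) && decide (e' ∈ t)) = false := by
  rw [Bool.eq_false_iff]
  intro h
  simp only [Bool.and_eq_true, decide_eq_true_eq] at h
  exact hne (ht.2 e h.1 e' h.2 v hv hv')

theorem not_schedulable (N : ℕ) : ¬ ∃ S, IsFeasible Gr (fr N) S := by
  rintro ⟨S, hS, hF⟩
  have f0 := hF s(0, 1) ((mem_edge _).2 (by decide)) 3
  have f1 := fun t => hF s(0, 2) ((mem_edge _).2 (by decide)) t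
  have f2 := fun t => hF s(0, 3) ((mem_edge _).2 (by decide)) t
  have f3 := fun t => hF s(1, 2) ((mem_edge _).2 (by decide)) t
  have f4 := fun t => hF s(1, 4) ((mem_edge _).2 (by decide)) t
  have f5 := fun t => hF s(3, 5) ((mem_edge _).2 (by decide)) t
  have f6 := fun t => hF s(4, 5) ((mem_edge _).2 (by decide)) t
  have r2 : fr N s(0, 2) = 5 := rfl
  have r3 : fr N s(0, 3) = 2 := rfl
  have r4 : fr N s(1, 2) = 5 := rfl
  have r5 : fr N s(1, 4) = 2 := rfl
  have r6 : fr N s(3, 5) = 4 := rfl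
  have r7 : fr N s(4, 5) = 4 := rfl
  rw [r2] at f1
  rw [r3] at f2
  rw [r4] at f3
  rw [r5] at f4
  rw [r6] at f5
  rw [r7] at f6
  obtain ⟨i, _, hi⟩ := f0
  refine no_run (fun t => s(0, 1) ∈ S t) (fun t => s(0, 2) ∈ S t) (fun t => s(0, 3) ∈ S t)
    (fun t => s(1, 2) ∈ S t) (fun t => s(1, 4) ∈ S t) (fun t => s(3, 5) ∈ S t)
    (fun t => s(4, 5) ∈ S t) f1 f2 f3 f4 f5 f6 ?_ 7 4 0 0 0 0 0 0 i chk_run ?_
    (srv_zero f1 i) (srv_zero f2 i) (srv_zero f3 i) (srv_zero f4 i)
    (srv_zero f5 i) (srv_zero f6 i)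
  · intro t
    have h := alts (decide (s(0, 1) ∈ S t)) (decide (s(0, 2) ∈ S t)) (decide (s(0, 3) ∈ S t))
      (decide (s(1, 2) ∈ S t)) (decide (s(1, 4) ∈ S t)) (decide (s(3, 5) ∈ S t))
      (decide (s(4, 5) ∈ S t))
    rw [adj_false (hS t) s(0, 1) s(0, 2) 0 (by decide) (by decide) (by decide),
      adj_false (hS t) s(0, 1) s(0, 3) 0 (by decide) (by decide) (by decide),
      adj_false (hS t) s(0, 2) s(0, 3) 0 (by decide) (by decide) (by decide),
      adj_false (hS t) s(0, 1) s(1, 2) 1 (by decide) (by decide) (by decide),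
      adj_false (hS t) s(0, 1) s(1, 4) 1 (by decide) (by decide) (by decide),
      adj_false (hS t) s(1, 2) s(1, 4) 1 (by decide) (by decide) (by decide),
      adj_false (hS t) s(0, 2) s(1, 2) 2 (by decide) (by decide) (by decide),
      adj_false (hS t) s(0, 3) s(3, 5) 3 (by decide) (by decide) (by decide),
      adj_false (hS t) s(1, 4) s(4, 5) 4 (by decide) (by decide) (by decide),
      adj_false (hS t) s(3, 5) s(4, 5) 5 (by decide) (by decide) (by decide)] at h
    simp only [Bool.or_eq_true, Bool.and_eq_true, Bool.not_eq_true', decide_eq_false_iff_not,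
      Bool.false_eq_true, false_or] at h
    simp only [or_assoc, and_assoc] at h
    exact h
  · intro q hq
    obtain rfl : q = 3 := by omega
    have : i + 3 = 3 + i := by omega
    show s(0, 1) ∈ S (i + 3)
    rw [this]
    exact hi

/-! ### the poly density -/

lemma isMatch_of {M : Finset (Sym2 (Fin 6))} (h1 : ∀ e ∈ M, e ∈ edg)
    (h2 : ∀ v : Fin 6, (M.filter (v ∈ ·)).card ≤ 1) : IsMatch Gr M := by
  refine ⟨fun e he => (mem_edge e).2 (h1 e he), fun e he e' he' v hv hv' => ?_⟩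
  exact Finset.card_le_one.1 (h2 v) e (Finset.mem_filter.2 ⟨he, hv⟩) e'
    (Finset.mem_filter.2 ⟨he', hv'⟩)

/-- a matching that meets every edge is maximal -/
lemma maxMatch_of {M : Finset (Sym2 (Fin 6))} (h1 : ∀ e ∈ M, e ∈ edg)
    (h2 : ∀ v : Fin 6, (M.filter (v ∈ ·)).card ≤ 1)
    (h : ∀ e ∈ edg, e ∉ M → ∃ v : Fin 6, v ∈ e ∧ (M.filter (v ∈ ·)).Nonempty) :
    IsMaxMatch Gr M := by
  refine ⟨isMatch_of h1 h2, fun M' hM' hsub => ?_⟩
  apply Finset.Subset.antisymm _ hsub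
  intro e he
  by_contra hn
  obtain ⟨v, hv, e', hv'⟩ := h e ((mem_edge e).1 (hM'.1 e he)) hn
  rw [Finset.mem_filter] at hv'
  have := hM'.2 e he e' (hsub hv'.1) v hv hv'.2
  subst this
  exact hn hv'.1

lemma max_ce : IsMaxMatch Gr {s(0, 3), s(1, 4)} :=
  maxMatch_of (by decide) (by decide) (by decide)
lemma max_af : IsMaxMatch Gr {s(0, 1), s(3, 5)} :=
  maxMatch_of (by decide) (by decide) (by decide)
lemma max_ag : IsMaxMatch Gr {s(0, 1), s(4, 5)} :=
  maxMatch_of (by decide) (by decide) (by decide)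
lemma max_bef : IsMaxMatch Gr {s(0, 2), s(1, 4), s(3, 5)} :=
  maxMatch_of (by decide) (by decide) (by decide)
lemma max_cdg : IsMaxMatch Gr {s(0, 3), s(1, 2), s(4, 5)} :=
  maxMatch_of (by decide) (by decide) (by decide)

lemma bdd (N : ℕ) (z : Sym2 (Fin 6) → ℝ) :
    BddAbove {y | ∃ M : Finset (Sym2 (Fin 6)), IsMaxMatch Gr M ∧ y = ∑ e ∈ M, z e * fr N e} := by
  apply Set.Finite.bddAbove
  apply (Set.finite_range fun M : Finset (Sym2 (Fin 6)) => ∑ e ∈ M, z e * fr N e).subset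
  rintro y ⟨M, _, rfl⟩
  exact ⟨M, rfl⟩

lemma low (N : ℕ) (hN : 10 ≤ N) (z : Sym2 (Fin 6) → ℝ) (hz : IsWeighting Gr z) :
    (4 * N / (3 * N + 2) : ℝ) ≤ sSup {y | ∃ M : Finset (Sym2 (Fin 6)),
      IsMaxMatch Gr M ∧ y = ∑ e ∈ M, z e * fr N e} := by
  obtain ⟨X, hX⟩ : ∃ X : ℝ, X = sSup {y | ∃ M : Finset (Sym2 (Fin 6)),
      IsMaxMatch Gr M ∧ y = ∑ e ∈ M, z e * fr N e} := ⟨_, rfl⟩
  have key : ∀ M : Finset (Sym2 (Fin 6)), IsMaxMatch Gr M → ∑ e ∈ M, z e * fr N e ≤ X := by
    intro M hM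
    rw [hX]
    exact le_csSup (bdd N z) ⟨M, hM, rfl⟩
  rw [← hX]
  have k1 := key _ max_ce
  have k2 := key _ max_af
  have k3 := key _ max_ag
  have k4 := key _ max_bef
  have k5 := key _ max_cdg
  have hs := hz.2
  rw [edge_finset] at hs
  have hb := (hz.1 s(0, 2) ((mem_edge _).2 (by decide))).1
  have hd := (hz.1 s(1, 2) ((mem_edge _).2 (by decide))).1
  have r1 : fr N s(0, 1) = N := rfl
  have r2 : fr N s(0, 2) = 5 := rfl
  have r3 : fr N s(0, 3) = 2 := rfl
  have r4 : fr N s(1, 2) = 5 := rfl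
  have r5 : fr N s(1, 4) = 2 := rfl
  have r6 : fr N s(3, 5) = 4 := rfl
  have r7 : fr N s(4, 5) = 4 := rfl
  unfold edg at hs
  rw [Finset.sum_insert (by decide), Finset.sum_insert (by decide), Finset.sum_insert (by decide),
    Finset.sum_insert (by decide), Finset.sum_insert (by decide), Finset.sum_insert (by decide),
    Finset.sum_singleton] at hs
  rw [Finset.sum_insert (by decide), Finset.sum_singleton, r3, r5] at k1
  rw [Finset.sum_insert (by decide), Finset.sum_singleton, r1, r6] at k2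
  rw [Finset.sum_insert (by decide), Finset.sum_singleton, r1, r7] at k3
  rw [Finset.sum_insert (by decide), Finset.sum_insert (by decide), Finset.sum_singleton,
    r2, r5, r6] at k4
  rw [Finset.sum_insert (by decide), Finset.sum_insert (by decide), Finset.sum_singleton,
    r3, r4, r7] at k5
  push_cast at k1 k2 k3 k4 k5
  have hNR : (10 : ℝ) ≤ N := by exact_mod_cast hN
  rw [div_le_iff₀ (by linarith)]
  have j1 := mul_le_mul_of_nonneg_left k1 (by linarith : (0 : ℝ) ≤ N + 2)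
  have j2 := mul_le_mul_of_nonneg_left k2 (by norm_num : (0 : ℝ) ≤ 2)
  have j3 := mul_le_mul_of_nonneg_left k3 (by norm_num : (0 : ℝ) ≤ 2)
  have j4 := mul_le_mul_of_nonneg_left k4 (by linarith : (0 : ℝ) ≤ N - 2)
  have j5 := mul_le_mul_of_nonneg_left k5 (by linarith : (0 : ℝ) ≤ N - 2)
  have jb := mul_nonneg (by linarith : (0 : ℝ) ≤ N - 10) hb
  have jd := mul_nonneg (by linarith : (0 : ℝ) ≤ N - 10) hd
  have hs' : 4 * (N : ℝ) * (z s(0, 1) + (z s(0, 2) + (z s(0, 3) + (z s(1, 2) + (z s(1, 4) +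
    (z s(3, 5) + z s(4, 5))))))) = 4 * N := by rw [hs, mul_one]
  linarith

/-- the five-cycle `01, 03, 35, 45, 14` -/
def cyc : Finset (Sym2 (Fin 6)) := {s(0, 1), s(0, 3), s(1, 4), s(3, 5), s(4, 5)}

/-- the optimal weighting -/
noncomputable def zz (N : ℕ) (e : Sym2 (Fin 6)) : ℝ :=
  if e ∈ cyc then 2 * N / ((3 * N + 2) * fr N e) else 0

lemma zz_fr (N : ℕ) (hN : 10 ≤ N) (e : Sym2 (Fin 6)) : zz N e * fr N e =
    if e ∈ cyc then (2 * N / (3 * N + 2) : ℝ) else 0 := by
  have hNR : (10 : ℝ) ≤ N := by exact_mod_cast hN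
  have hf : (fr N e : ℝ) ≠ 0 := by
    have : fr N e ≠ 0 := by
      unfold fr
      split_ifs <;> omega
    exact_mod_cast this
  unfold zz
  split_ifs
  · have h3 : (3 * (N : ℝ) + 2) ≠ 0 := by positivity
    field_simp
  · rw [zero_mul]

lemma zz_weight (N : ℕ) (hN : 10 ≤ N) : IsWeighting Gr (zz N) := by
  have hNR : (10 : ℝ) ≤ N := by exact_mod_cast hN
  refine ⟨?_, ?_⟩
  · intro e _
    have hf : (2 : ℝ) ≤ fr N e := by
      have : 2 ≤ fr N e := by
        unfold fr
        split_ifs <;> omega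
      exact_mod_cast this
    unfold zz
    split_ifs
    · refine ⟨by positivity, ?_⟩
      rw [div_le_one (by positivity)]
      nlinarith
    · norm_num
  · rw [edge_finset]
    have r1 : fr N s(0, 1) = N := rfl
    have r3 : fr N s(0, 3) = 2 := rfl
    have r5 : fr N s(1, 4) = 2 := rfl
    have r6 : fr N s(3, 5) = 4 := rfl
    have r7 : fr N s(4, 5) = 4 := rfl
    unfold edg
    rw [Finset.sum_insert (by decide), Finset.sum_insert (by decide),
      Finset.sum_insert (by decide), Finset.sum_insert (by decide), Finset.sum_insert (by decide),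
      Finset.sum_insert (by decide), Finset.sum_singleton]
    unfold zz
    rw [if_pos (by decide), if_neg (by decide), if_pos (by decide), if_neg (by decide),
      if_pos (by decide), if_pos (by decide), if_pos (by decide), r1, r3, r5, r6, r7]
    have h3 : (3 * (N : ℝ) + 2) ≠ 0 := by positivity
    have h4 : (N : ℝ) ≠ 0 := by positivity
    push_cast
    field_simp
    ring

lemma five : ∀ a c e f g : Bool, ((a && c) || (a && e) || (c && f) || (e && g) || (f && g) ||
    decide (a.toNat + (c.toNat + (e.toNat + (f.toNat + g.toNat))) ≤ 2)) = true := by decide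

lemma cyc_card {M : Finset (Sym2 (Fin 6))} (hM : IsMatch Gr M) :
    (M.filter (· ∈ cyc)).card ≤ 2 := by
  have h1 : M.filter (· ∈ cyc) = cyc.filter (· ∈ M) := by
    ext e
    simp only [Finset.mem_filter]
    tauto
  have h2 : (cyc.filter (· ∈ M)).card = ∑ e ∈ cyc, (decide (e ∈ M)).toNat := by
    rw [Finset.card_filter]
    refine Finset.sum_congr rfl fun e _ => ?_
    by_cases h : e ∈ M <;> simp [h]
  rw [h1, h2]
  unfold cyc
  rw [Finset.sum_insert (by decide), Finset.sum_insert (by decide), Finset.sum_insert (by decide),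
    Finset.sum_insert (by decide), Finset.sum_singleton]
  have h := five (decide (s(0, 1) ∈ M)) (decide (s(0, 3) ∈ M)) (decide (s(1, 4) ∈ M))
    (decide (s(3, 5) ∈ M)) (decide (s(4, 5) ∈ M))
  rw [adj_false hM s(0, 1) s(0, 3) 0 (by decide) (by decide) (by decide),
    adj_false hM s(0, 1) s(1, 4) 1 (by decide) (by decide) (by decide),
    adj_false hM s(0, 3) s(3, 5) 3 (by decide) (by decide) (by decide),
    adj_false hM s(1, 4) s(4, 5) 4 (by decide) (by decide) (by decide),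
    adj_false hM s(3, 5) s(4, 5) 5 (by decide) (by decide) (by decide)] at h
  simpa using h

lemma zz_max (N : ℕ) (hN : 10 ≤ N) : sSup {y | ∃ M : Finset (Sym2 (Fin 6)),
      IsMaxMatch Gr M ∧ y = ∑ e ∈ M, zz N e * fr N e} = 4 * N / (3 * N + 2) := by
  have hNR : (10 : ℝ) ≤ N := by exact_mod_cast hN
  apply le_antisymm _ (low N hN (zz N) (zz_weight N hN))
  refine csSup_le ⟨∑ e ∈ ({s(0, 3), s(1, 4)} : Finset (Sym2 (Fin 6))), zz N e * fr N e,
    {s(0, 3), s(1, 4)}, max_ce, rfl⟩ ?_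
  rintro y ⟨M, hM, rfl⟩
  have h1 : ∑ e ∈ M, zz N e * fr N e =
      ∑ e ∈ M.filter (· ∈ cyc), (2 * N / (3 * N + 2) : ℝ) := by
    rw [Finset.sum_filter]
    exact Finset.sum_congr rfl fun e _ => zz_fr N hN e
  rw [h1, Finset.sum_const, nsmul_eq_mul]
  have h3 : ((M.filter (· ∈ cyc)).card : ℝ) ≤ 2 := by exact_mod_cast cyc_card hM.1
  have h4 : (0 : ℝ) ≤ 2 * N / (3 * N + 2) := by positivity
  calc ((M.filter (· ∈ cyc)).card : ℝ) * (2 * N / (3 * N + 2))
      ≤ 2 * (2 * N / (3 * N + 2)) := mul_le_mul_of_nonneg_right h3 h4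
    _ = 4 * N / (3 * N + 2) := by ring

theorem density (N : ℕ) (hN : 10 ≤ N) :
    IsGreatest (densityValues Gr (fr N)) (3 / 4 + 1 / (2 * N)) := by
  have hNR : (10 : ℝ) ≤ N := by exact_mod_cast hN
  have h3 : (3 * (N : ℝ) + 2) ≠ 0 := by positivity
  have h4 : (N : ℝ) ≠ 0 := by positivity
  have e1 : (3 / 4 + 1 / (2 * N) : ℝ) = 1 / (4 * N / (3 * N + 2)) := by
    field_simp
    ring
  refine ⟨⟨zz N, zz_weight N hN, ?_⟩, ?_⟩
  · rw [zz_max N hN, e1]
  · rintro x ⟨z, hz, rfl⟩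
    rw [e1]
    exact one_div_le_one_div_of_le (by positivity) (low N hN z hz)

/-- For every `N ≥ 10` there is an instance of polyamorous scheduling (a graph with seven edges on
six vertices, with the frequencies `N, 5, 2, 5, 2, 4, 4`) whose poly density is exactly
`3/4 + 1/(2N)` (for `N = 10` this is `4/5 < 5/6`) and which has no feasible schedule. -/
theorem result : ∀ N : ℕ, 10 ≤ N → ∃ (G : SimpleGraph (Fin 6)) (f : Sym2 (Fin 6) → ℕ),
    G.edgeSet.Nonempty ∧ (∀ e ∈ G.edgeSet, 1 ≤ f e) ∧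
    IsGreatest (densityValues G f) (3 / 4 + 1 / (2 * N)) ∧
    (3 / 4 + 1 / (2 * N) : ℝ) < 5 / 6 ∧
    ¬ ∃ S : ℕ → Finset (Sym2 (Fin 6)), IsFeasible G f S := by
  intro N hN
  refine ⟨Gr, fr N, ⟨s(0, 1), (mem_edge _).2 (by decide)⟩, ?_, density N hN, ?_,
    not_schedulable N⟩
  · intro e _
    unfold fr
    split_ifs <;> omega
  · have hNR : (10 : ℝ) ≤ N := by exact_mod_cast hN
    have : (1 / (2 * N) : ℝ) ≤ 1 / 20 := by
      apply one_div_le_one_div_of_le (by norm_num)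
      linarith
    linarith

end Pool.Agent.Results.MP_90a930_lc.ThreeQuarters
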